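import Pool.Agent.TH644.KD.Final

set_option autoImplicit false

/-!
# The second Kahn-Kalai conjecture up to a power of a logarithm given by the density

For every graph `H` on at most `n` vertices with a cycle, and every subgraph `F` of `H` with
`0 < e(F)` and `v(F) ≤ e(F)`, the threshold `pc` for `G(n,p)` to contain `H` is at most
`220000 * pE * (min (Δ(H)) (log (n pE) + log n / (n pE))) ^ (v(F)/e(F)) * log (2 e(H))`,
where `pE` is the expectation threshold of `H`.
-/

namespace Pool.Agent.Results.MP_974ae5_pr.DensityExponent

open Pool.Agent.TH965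
open scoped Classical in
/-- Upper bound on the threshold for containing a graph with a cycle by its expectation
threshold, the maximum degree and the density of a subgraph. -/
theorem result (n m : ℕ) (hn : 2 ≤ n) (hmn : m ≤ n) (H : SimpleGraph (Fin m))
    (F : H.Subgraph) (hF0 : 0 < F.edgeSet.ncard) (hF : F.verts.ncard ≤ F.edgeSet.ncard)
    (pc : ℝ) (hpc1 : pc ≤ 1)
    (hpc : gnp n pc (fun G => H.IsContained G) = 1 / 2) :
    pc ≤ 220000 * pE n H
      * (min (H.maxDegree : ℝ) (Real.log (n * pE n H) + Real.log n / (n * pE n H)))
          ^ ((F.verts.ncard : ℝ) / F.edgeSet.ncard)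
      * Real.log (2 * H.edgeSet.ncard) :=
  Pool.Agent.TH644.KD.cyclic_threshold_le_pE hn hmn H F hF0 hF pc hpc1 hpc.le

end Pool.Agent.Results.MP_974ae5_pr.DensityExponent
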