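import Pool.Agent.TH644.KK.Forest

set_option autoImplicit false

/-!
# The second Kahn-Kalai conjecture for forests

For every forest `H` (acyclic graph, arbitrary degrees, connected or not) with at least one edge and at
most `n` vertices, the threshold `pc` for `G(n,p)` to contain `H` is at most
`20000000 * pE(H,n) * log(2 e(H))`, where `pE` is the expectation threshold.
-/

namespace Pool.Agent.Results.MP_974ae5_pr.ForestsUniversal

open Pool.Agent.TH965

/-- Upper bound on the threshold for containing a forest by its expectation threshold. -/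
theorem result (n m : ℕ) (hn : 2 ≤ n) (hmn : m ≤ n) (H : SimpleGraph (Fin m))
    (hac : H.IsAcyclic) (hH : H ≠ ⊥) (pc : ℝ) (hpc1 : pc ≤ 1)
    (hpc : gnp n pc (fun G => H.IsContained G) = 1 / 2) :
    pc ≤ 20000000 * pE n H * Real.log (2 * H.edgeSet.ncard) :=
  Pool.Agent.TH644.KK.forest_threshold_le_pE hn hmn H hac hH pc hpc1 hpc.le

end Pool.Agent.Results.MP_974ae5_pr.ForestsUniversal
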